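import Pool.Graph.R_seed8.Results.MP_06b6d5_co.DoobGraphs

/-!
# Cores of all Doob graphs

The Doob graph `D(m, n)` is the Cartesian product of `m` Shrikhande graphs and `n` complete graphs
`K_4`. All these graphs are distance-regular, with the intersection numbers of the Hamming graph
`H(2m + n, 4)`. We determine the core of every one of them, all homomorphisms between them up to
existence, and exactly which of them are core-complete.
-/

set_option autoImplicit false

namespace Pool.Agent.Results.MP_06b6d5_co.DoobClassification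

open SimpleGraph

/-- `X` is distance-regular of diameter `d` with intersection numbers `b i`, `c i`: it is
connected of diameter `d`, and for all vertices `u`, `v` at distance `i`, the vertex `v` has
exactly `c i` neighbours at distance `i - 1` from `u` and exactly `b i` neighbours at distance
`i + 1` from `u`. -/
def IsDistanceRegular {V : Type} (X : SimpleGraph V) (d : ℕ) (b c : ℕ → ℕ) : Prop :=
  X.Connected ∧ X.diam = d ∧ ∀ u v : V,
    {w | X.Adj v w ∧ X.dist u w + 1 = X.dist u v}.ncard = c (X.dist u v) ∧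
    {w | X.Adj v w ∧ X.dist u w = X.dist u v + 1}.ncard = b (X.dist u v)

/-- A graph is a core if each of its endomorphisms is an automorphism. -/
def IsCore {W : Type} (C : SimpleGraph W) : Prop :=
  ∀ f : C →g C, ∃ e : C ≃g C, ∀ w, e w = f w

/-- `C` is a core of `X`: it is a core, it is isomorphic to an induced subgraph of `X` and `X`
has a homomorphism to it. -/
def IsCoreOf {V W : Type} (C : SimpleGraph W) (X : SimpleGraph V) : Prop :=
  IsCore C ∧ Nonempty (C ↪g X) ∧ Nonempty (X →g C)

/-- `X` is core-complete: its core is isomorphic to `X` or complete. -/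
def CoreComplete {V : Type} (X : SimpleGraph V) : Prop :=
  ∀ (W : Type) (C : SimpleGraph W), IsCoreOf C X → Nonempty (X ≃g C) ∨ C = ⊤

/-- The Shrikhande graph: the Cayley graph of `ℤ/4 × ℤ/4` with connection set
`± (1,0), ± (0,1), ± (1,1)`. -/
def shrikhande : SimpleGraph (ZMod 4 × ZMod 4) where
  Adj u v := v - u ∈ ({(1, 0), (3, 0), (0, 1), (0, 3), (1, 1), (3, 3)} :
    Finset (ZMod 4 × ZMod 4))
  symm := DoobGraphs.shrikhande.symm
  loopless := DoobGraphs.shrikhande.loopless

/-- The vertex set of the Hamming graph `H(n, 4)`. -/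
def HamV : ℕ → Type
  | 0 => PUnit
  | n + 1 => HamV n × Fin 4

/-- The Hamming graph `H(n, 4)`: the Cartesian product of `n` complete graphs with four vertices
(the one-vertex graph if `n = 0`). -/
def ham : (n : ℕ) → SimpleGraph (HamV n)
  | 0 => (⊤ : SimpleGraph PUnit)
  | n + 1 => ham n □ (⊤ : SimpleGraph (Fin 4))

/-- The vertex set of the Doob graph `D(m, n)`. -/
def DoobV : ℕ → ℕ → Type
  | 0, n => HamV n
  | m + 1, n => DoobV m n × (ZMod 4 × ZMod 4)

/-- The Doob graph `D(m, n)`: the Cartesian product of `m` Shrikhande graphs and `n` complete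
graphs with four vertices (the one-vertex graph if `m = n = 0`). -/
def doob : (m n : ℕ) → SimpleGraph (DoobV m n)
  | 0, n => ham n
  | m + 1, n => doob m n □ shrikhande

/-! ### Basic facts -/

instance finite_HamV : ∀ n, Finite (HamV n)
  | 0 => inferInstanceAs (Finite PUnit)
  | n + 1 => by
    have := finite_HamV n
    exact inferInstanceAs (Finite (HamV n × Fin 4))

instance finite_DoobV : ∀ m n, Finite (DoobV m n)
  | 0, n => finite_HamV n
  | m + 1, n => by
    have := finite_DoobV m n
    exact inferInstanceAs (Finite (DoobV m n × (ZMod 4 × ZMod 4)))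

/-- a base vertex -/
def hbase : (n : ℕ) → HamV n
  | 0 => PUnit.unit
  | n + 1 => (hbase n, (0 : Fin 4))

/-- a base vertex -/
def base : (m n : ℕ) → DoobV m n
  | 0, n => hbase n
  | m + 1, n => (base m n, ((0, 0) : ZMod 4 × ZMod 4))

lemma card_HamV : ∀ n, Nat.card (HamV n) = 4 ^ n
  | 0 => by
    show Nat.card PUnit = 4 ^ 0
    simp
  | n + 1 => by
    show Nat.card (HamV n × Fin 4) = 4 ^ (n + 1)
    rw [Nat.card_prod, card_HamV n]
    simp [Nat.card_eq_fintype_card]
    ring

lemma card_DoobV : ∀ m n, Nat.card (DoobV m n) = 16 ^ m * 4 ^ n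
  | 0, n => by
    show Nat.card (HamV n) = 16 ^ 0 * 4 ^ n
    rw [card_HamV]
    simp
  | m + 1, n => by
    show Nat.card (DoobV m n × (ZMod 4 × ZMod 4)) = 16 ^ (m + 1) * 4 ^ n
    rw [Nat.card_prod, card_DoobV m n]
    simp [Nat.card_eq_fintype_card, ZMod.card]
    ring

/-! ### Distance-regularity -/

lemma top_dist {W : Type} (u v : W) : (⊤ : SimpleGraph W).dist u v ≤ 1 ∧
    ((⊤ : SimpleGraph W).dist u v = 0 ↔ u = v) := by
  classical
  by_cases h : u = v
  · subst h
    simp
  · have h1 : (⊤ : SimpleGraph W).dist u v = 1 :=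
      SimpleGraph.dist_eq_one_iff_adj.2 ((SimpleGraph.top_adj u v).2 h)
    rw [h1]
    simp [h]

lemma K4_HType : DoobGraphs.HType (⊤ : SimpleGraph (Fin 4)) 1 where
  conn := SimpleGraph.connected_top
  le := fun u v => (top_dist u v).1
  ex := ⟨0, 1, SimpleGraph.dist_eq_one_iff_adj.2 ((SimpleGraph.top_adj _ _).2 (by decide))⟩
  cc := by
    intro u v
    by_cases h : u = v
    · subst h
      simp
    · have h1 : (⊤ : SimpleGraph (Fin 4)).dist u v = 1 :=
        SimpleGraph.dist_eq_one_iff_adj.2 ((SimpleGraph.top_adj u v).2 h)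
      rw [h1]
      have : {w | (⊤ : SimpleGraph (Fin 4)).Adj v w ∧ (⊤ : SimpleGraph (Fin 4)).dist u w + 1 = 1} =
          {u} := by
        ext w
        simp only [Set.mem_ofPred_eq, Set.mem_singleton_iff, SimpleGraph.top_adj]
        constructor
        · rintro ⟨_, h2⟩
          exact ((top_dist u w).2.1 (by omega)).symm
        · rintro rfl
          exact ⟨fun e => h e.symm, by simp⟩
      rw [this, Set.ncard_singleton]
  bb := by
    intro u v
    by_cases h : u = v
    · subst h
      have : {w | (⊤ : SimpleGraph (Fin 4)).Adj u w ∧ (⊤ : SimpleGraph (Fin 4)).dist u w =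
          (⊤ : SimpleGraph (Fin 4)).dist u u + 1} = ((Finset.univ.erase u : Finset (Fin 4)) :
            Set (Fin 4)) := by
        ext w
        simp only [Set.mem_ofPred_eq, SimpleGraph.top_adj, SimpleGraph.dist_self, zero_add,
          SimpleGraph.dist_eq_one_iff_adj, Finset.coe_erase, Finset.coe_univ, Set.mem_sdiff,
          Set.mem_univ, true_and, Set.mem_singleton_iff, and_self]
        exact ⟨fun h e => h e.symm, fun h e => h e.symm⟩
      rw [this, Set.ncard_coe_finset, Finset.card_erase_of_mem (Finset.mem_univ _)]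
      simp
    · have h1 : (⊤ : SimpleGraph (Fin 4)).dist u v = 1 :=
        SimpleGraph.dist_eq_one_iff_adj.2 ((SimpleGraph.top_adj u v).2 h)
      rw [h1]
      have : {w | (⊤ : SimpleGraph (Fin 4)).Adj v w ∧ (⊤ : SimpleGraph (Fin 4)).dist u w =
          1 + 1} = ∅ := by
        ext w
        simp only [Set.mem_ofPred_eq, Set.mem_empty_iff_false, iff_false, not_and]
        intro _ h2
        have := (top_dist u w).1
        omega
      rw [this]
      simp

lemma K1_HType : DoobGraphs.HType (⊤ : SimpleGraph PUnit.{1}) 0 where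
  conn := SimpleGraph.connected_top
  le := fun u v => by
    have : u = v := Subsingleton.elim _ _
    rw [this]; simp
  ex := ⟨PUnit.unit, PUnit.unit, by simp⟩
  cc := by
    intro u v
    have : u = v := Subsingleton.elim _ _
    subst this
    simp
  bb := by
    intro u v
    have : u = v := Subsingleton.elim _ _
    subst this
    simp

lemma ham_HType : ∀ n, DoobGraphs.HType (ham n) n
  | 0 => K1_HType
  | n + 1 => (ham_HType n).box K4_HType

lemma doob_HType : ∀ m n, DoobGraphs.HType (doob m n) (2 * m + n)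
  | 0, n => by
    have h := ham_HType n
    have e : n = 2 * 0 + n := by ring
    rw [← e]
    exact h
  | m + 1, n => by
    have h := (doob_HType m n).box DoobGraphs.shrikhande_HType
    have e : 2 * m + n + 2 = 2 * (m + 1) + n := by ring
    rw [e] at h
    exact h

/-! ### Cores -/

lemma exists_core {V : Type} [Finite V] (X : SimpleGraph V) :
    ∃ (W : Type) (_ : Finite W) (C : SimpleGraph W), IsCoreOf C X :=
  DoobGraphs.exists_core X

/-- homomorphically equivalent cores are isomorphic -/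
lemma core_unique {V W : Type} {C : SimpleGraph V} {D : SimpleGraph W} (hC : IsCore C)
    (hD : IsCore D) (f : C →g D) (g : D →g C) : Nonempty (C ≃g D) := by
  obtain ⟨e, he⟩ := hC (g.comp f)
  obtain ⟨e', he'⟩ := hD (f.comp g)
  have hinj : Function.Injective f := by
    intro a b hab
    apply e.injective
    rw [he, he]
    exact congrArg g hab
  have hsurj : Function.Surjective f := by
    intro b
    obtain ⟨a, ha⟩ := e'.surjective b
    rw [he'] at ha
    exact ⟨g a, ha⟩
  refine ⟨⟨Equiv.ofBijective f ⟨hinj, hsurj⟩, ?_⟩⟩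
  intro a b
  constructor
  · intro h
    have h1 : C.Adj (e a) (e b) := by
      rw [he, he]
      exact g.map_adj h
    exact e.map_adj_iff.1 h1
  · intro h
    exact f.map_adj h

/-- a graph which is homomorphically equivalent to a core `D` has `D` as core, up to
isomorphism -/
lemma core_of_equiv {U V W : Type} {X : SimpleGraph U} {C : SimpleGraph V} {D : SimpleGraph W}
    (hC : IsCoreOf C X) (hD : IsCore D) (f : X →g D) (g : D →g X) : Nonempty (C ≃g D) := by
  obtain ⟨hcore, ⟨i⟩, ⟨r⟩⟩ := hC
  exact core_unique hcore hD (f.comp i.toHom) (r.comp g)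

lemma top_core (W : Type) [Finite W] : IsCore (⊤ : SimpleGraph W) := by
  intro f
  apply DoobGraphs.bijective_endo
  intro a b hab
  by_contra h
  have := f.map_adj ((SimpleGraph.top_adj a b).2 h)
  rw [hab] at this
  exact (SimpleGraph.top_adj _ _).1 this rfl

lemma IsCore.iso {V W : Type} {C : SimpleGraph V} {D : SimpleGraph W} (hD : IsCore D)
    (e : C ≃g D) : IsCore C := by
  intro f
  obtain ⟨a, ha⟩ := hD ((e.toHom.comp f).comp e.symm.toHom)
  refine ⟨(e.trans a).trans e.symm, ?_⟩
  intro w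
  have h1 := ha (e w)
  show e.symm (a (e w)) = f w
  rw [h1]
  show e.symm (e (f (e.symm (e w)))) = f w
  rw [e.symm_apply_apply, e.symm_apply_apply]

/-- the cores of a finite graph which is homomorphically equivalent to the core `D` are exactly
the graphs isomorphic to `D` -/
lemma isCoreOf_iff {U V W : Type} [Finite U] {X : SimpleGraph U} {C : SimpleGraph V}
    {D : SimpleGraph W} (hD : IsCore D) (f : X →g D) (g : D →g X) :
    IsCoreOf C X ↔ Nonempty (C ≃g D) := by
  constructor
  · intro hC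
    exact core_of_equiv hC hD f g
  · rintro ⟨e⟩
    obtain ⟨W', _, C', hC'⟩ := exists_core X
    obtain ⟨e'⟩ := core_of_equiv hC' hD f g
    obtain ⟨i⟩ := hC'.2.1
    exact ⟨hD.iso e, ⟨i.comp (e.trans e'.symm).toRelEmbedding⟩, ⟨e.symm.toHom.comp f⟩⟩

/-! ### The Shrikhande graph is a core -/

/-- the adjacency matrix of the Shrikhande graph, as a number; the vertex `(a, b)` has the number
`4 a + b` -/
def mat : ℕ := 41629829715400100489067412434957439965684887810289700744189528318077177270330

def adjN (x y : ℕ) : Bool := mat.testBit (16 * x + y)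

/-- backtracking search: `acc` is a list of vertices with their images, `L` is a list of vertices
to which images have to be given; the result is `true` if in all possible ways to do that all
images are different -/
def search : List ℕ → List (ℕ × ℕ) → Bool
  | [], acc => decide (acc.map Prod.snd).Nodup
  | v :: L, acc => (List.range 16).all fun c =>
      (! (acc.all fun p => (! adjN v p.1) || adjN c p.2)) || search L ((v, c) :: acc)

lemma search_sound (f : ℕ → ℕ) (hf : ∀ v < 16, f v < 16)
    (hom : ∀ u < 16, ∀ v < 16, adjN u v = true → adjN (f u) (f v) = true) :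
    ∀ (L K : List ℕ), (∀ v ∈ L, v < 16) → (∀ v ∈ K, v < 16) →
      search L (K.map fun v => (v, f v)) = true → ((L.reverse ++ K).map f).Nodup := by
  intro L
  induction L with
  | nil =>
    intro K _ _ h
    simp only [search, decide_eq_true_eq, List.map_map] at h
    have e : (Prod.snd ∘ fun v => (v, f v)) = f := rfl
    rw [e] at h
    simpa using h
  | cons v L ih =>
    intro K hL hK h
    rw [search, List.all_eq_true] at h
    have hv : v < 16 := hL v (by simp)
    have h1 := h (f v) (List.mem_range.2 (hf v hv))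
    rw [Bool.or_eq_true, Bool.not_eq_true'] at h1
    rcases h1 with h1 | h1
    · exfalso
      rw [List.all_eq_false] at h1
      obtain ⟨p, hp, hp'⟩ := h1
      obtain ⟨u, hu, rfl⟩ := List.mem_map.1 hp
      apply hp'
      rw [Bool.or_eq_true, Bool.not_eq_true']
      by_cases h2 : adjN v u = true
      · exact Or.inr (hom v hv u (hK u hu) h2)
      · exact Or.inl (by simpa using h2)
    · have h2 := ih (v :: K) (fun w hw => hL w (by simp [hw]))
        (by
          intro w hw
          rcases List.mem_cons.1 hw with rfl | hw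
          · exact hv
          · exact hK w hw) h1
      rw [List.reverse_cons, List.append_assoc]
      exact h2

lemma search_true : search [1, 5, 4, 3, 2, 6, 7, 8, 9, 13, 12, 11, 10, 14, 15] [(0, 0)] = true := by
  decide +kernel

def enc (a : ZMod 4 × ZMod 4) : ℕ := 4 * a.1.val + a.2.val

def dec (n : ℕ) : ZMod 4 × ZMod 4 := (((n / 4 : ℕ) : ZMod 4), ((n % 4 : ℕ) : ZMod 4))

lemma enc_dec : ∀ n < 16, enc (dec n) = n := by decide

lemma dec_enc : ∀ a, dec (enc a) = a := by decide

lemma enc_lt : ∀ a, enc a < 16 := by decide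

lemma adj_iff (a b : ZMod 4 × ZMod 4) : shrikhande.Adj a b ↔
    b - a ∈ ({(1, 0), (3, 0), (0, 1), (0, 3), (1, 1), (3, 3)} :
      Finset (ZMod 4 × ZMod 4)) := Iff.rfl

lemma adjN_iff (a b : ZMod 4 × ZMod 4) : shrikhande.Adj a b ↔ adjN (enc a) (enc b) = true := by
  rw [adj_iff]
  revert a b
  decide +kernel

lemma adj_sub (a b c : ZMod 4 × ZMod 4) (h : shrikhande.Adj a b) :
    shrikhande.Adj (a - c) (b - c) := by
  rw [adj_iff] at h ⊢
  rwa [sub_sub_sub_cancel_right]

lemma shrikhande_injective (g : shrikhande →g shrikhande) : Function.Injective g := by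
  -- normalise to `g 0 = 0`
  let f : ℕ → ℕ := fun n => enc (g (dec n) - g 0)
  have hf : ∀ v < 16, f v < 16 := fun v _ => enc_lt _
  have hom : ∀ u < 16, ∀ v < 16, adjN u v = true → adjN (f u) (f v) = true := by
    intro u hu v hv h
    rw [← enc_dec u hu, ← enc_dec v hv, ← adjN_iff] at h
    show adjN (enc _) (enc _) = true
    rw [← adjN_iff]
    exact adj_sub _ _ _ (g.map_adj h)
  have h0 : f 0 = 0 := by
    show enc (g (dec 0) - g 0) = 0
    have : dec 0 = 0 := by decide
    rw [this, sub_self]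
    rfl
  have key := search_sound f hf hom [1, 5, 4, 3, 2, 6, 7, 8, 9, 13, 12, 11, 10, 14, 15] [0]
    (by decide) (by decide) (by
      rw [List.map_singleton, h0]
      exact search_true)
  have hmem : ∀ n < 16, n ∈ ([1, 5, 4, 3, 2, 6, 7, 8, 9, 13, 12, 11, 10, 14, 15] : List ℕ).reverse ++
      [0] := by decide
  intro a b hab
  have h1 : f (enc a) = f (enc b) := by
    show enc (g (dec (enc a)) - g 0) = enc (g (dec (enc b)) - g 0)
    rw [dec_enc, dec_enc, hab]
  have h2 := List.inj_on_of_nodup_map key (hmem _ (enc_lt a)) (hmem _ (enc_lt b)) h1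
  rw [← dec_enc a, ← dec_enc b, h2]

lemma shrikhande_core : IsCore shrikhande := fun f =>
  DoobGraphs.bijective_endo _ f (shrikhande_injective f)

/-! ### Colourings, cliques and homomorphisms -/

/-- the colours: `(ℤ/2)²` -/
abbrev Col : Type := ZMod 2 × ZMod 2

def c4 : Fin 4 → Col := ![(0, 0), (0, 1), (1, 0), (1, 1)]

def par (a : ZMod 4 × ZMod 4) : Col := ((a.1.val : ZMod 2), (a.2.val : ZMod 2))

lemma c4_inj : ∀ i j, c4 i = c4 j → i = j := by decide

lemma par_ne : ∀ a b : ZMod 4 × ZMod 4, shrikhande.Adj a b → par a ≠ par b := by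
  intro a b
  rw [adj_iff]
  revert a b
  decide

/-- the sum of the colours of the coordinates -/
def hχ : (n : ℕ) → HamV n → Col
  | 0, _ => 0
  | n + 1, x => hχ n x.1 + c4 x.2

/-- the sum of the colours of the coordinates -/
def χ : (m n : ℕ) → DoobV m n → Col
  | 0, n, x => hχ n x
  | m + 1, n, x => χ m n x.1 + par x.2

lemma hχ_ne : ∀ n (x y : HamV n), (ham n).Adj x y → hχ n x ≠ hχ n y
  | 0, x, y, h => absurd (Subsingleton.elim (α := PUnit) x y)
      ((SimpleGraph.top_adj (V := PUnit) x y).1 h)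
  | n + 1, x, y, h => by
    have h' := (SimpleGraph.boxProd_adj (G := ham n) (H := (⊤ : SimpleGraph (Fin 4)))
      (x := x) (y := y)).1 h
    show hχ n x.1 + c4 x.2 ≠ hχ n y.1 + c4 y.2
    rcases h' with ⟨h1, h2⟩ | ⟨h1, h2⟩
    · rw [← h2]
      exact fun e => hχ_ne n _ _ h1 (add_right_cancel e)
    · rw [← h2]
      intro e
      exact (SimpleGraph.top_adj _ _).1 h1 (c4_inj _ _ (add_left_cancel e))

lemma χ_ne : ∀ m n (x y : DoobV m n), (doob m n).Adj x y → χ m n x ≠ χ m n y
  | 0, n, x, y, h => hχ_ne n x y h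
  | m + 1, n, x, y, h => by
    have h' := (SimpleGraph.boxProd_adj (G := doob m n) (H := shrikhande)
      (x := x) (y := y)).1 h
    show χ m n x.1 + par x.2 ≠ χ m n y.1 + par y.2
    rcases h' with ⟨h1, h2⟩ | ⟨h1, h2⟩
    · rw [← h2]
      exact fun e => χ_ne m n _ _ h1 (add_right_cancel e)
    · rw [← h2]
      intro e
      exact par_ne _ _ h1 (add_left_cancel e)

/-- the four-colouring of the Doob graph -/
def colHom (m n : ℕ) : doob m n →g (⊤ : SimpleGraph Col) :=
  ⟨χ m n, fun {x y} h => (SimpleGraph.top_adj _ _).2 (χ_ne m n x y h)⟩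

/-- a bijection of the colours with `Fin 4` -/
lemma exists_equiv : Nonempty (Col ≃ Fin 4) :=
  ⟨(Fintype.equivFinOfCardEq (by decide : Fintype.card Col = 4))⟩

lemma hom_K4 (m n : ℕ) : Nonempty (doob m n →g (⊤ : SimpleGraph (Fin 4))) := by
  obtain ⟨e⟩ := exists_equiv
  refine ⟨⟨fun x => e (χ m n x), ?_⟩⟩
  intro x y h
  rw [SimpleGraph.top_adj]
  exact fun h' => χ_ne m n x y h (e.injective h')

lemma K4_hom : ∀ m n, 1 ≤ n → Nonempty ((⊤ : SimpleGraph (Fin 4)) →g doob m n)
  | 0, 0, h => absurd h (by omega)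
  | 0, n + 1, _ => ⟨⟨fun c => ((hbase n, c) : HamV n × Fin 4), fun {a b} h => by
      show ((ham n) □ (⊤ : SimpleGraph (Fin 4))).Adj _ _
      rw [SimpleGraph.boxProd_adj]
      exact Or.inr ⟨h, rfl⟩⟩⟩
  | m + 1, n, h => by
    obtain ⟨f⟩ := K4_hom m n h
    exact ⟨⟨fun c => ((f c, (0, 0)) : DoobV m n × (ZMod 4 × ZMod 4)), fun {a b} h => by
      show ((doob m n) □ shrikhande).Adj _ _
      rw [SimpleGraph.boxProd_adj]
      exact Or.inl ⟨f.map_adj h, rfl⟩⟩⟩

/-- the sum of the coordinates -/
def σ : (m : ℕ) → DoobV m 0 → ZMod 4 × ZMod 4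
  | 0, _ => 0
  | m + 1, x => σ m x.1 + x.2

lemma adj_add (u v a : ZMod 4 × ZMod 4) (h : shrikhande.Adj u v) :
    shrikhande.Adj (u + a) (v + a) := by
  rw [adj_iff] at h ⊢
  rwa [add_sub_add_right_eq_sub]

lemma σ_adj : ∀ m (x y : DoobV m 0), (doob m 0).Adj x y → shrikhande.Adj (σ m x) (σ m y)
  | 0, x, y, h => absurd (Subsingleton.elim (α := PUnit) x y)
      ((SimpleGraph.top_adj (V := PUnit) x y).1 h)
  | m + 1, x, y, h => by
    have h' := (SimpleGraph.boxProd_adj (G := doob m 0) (H := shrikhande) (x := x) (y := y)).1 h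
    show shrikhande.Adj (σ m x.1 + x.2) (σ m y.1 + y.2)
    rcases h' with ⟨h1, h2⟩ | ⟨h1, h2⟩
    · rw [← h2]
      exact adj_add _ _ _ (σ_adj m _ _ h1)
    · rw [← h2, add_comm _ x.2, add_comm _ y.2]
      exact adj_add _ _ _ h1

/-- the homomorphism onto the Shrikhande graph given by the sum of the coordinates -/
def σhom (m : ℕ) : doob m 0 →g shrikhande := ⟨σ m, fun {x y} h => σ_adj m x y h⟩

/-- the embedding of the Shrikhande graph as last factor -/
def ιhom (m n : ℕ) : shrikhande →g doob (m + 1) n :=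
  ⟨fun a => ((base m n, a) : DoobV m n × (ZMod 4 × ZMod 4)), fun {a b} h => by
    show ((doob m n) □ shrikhande).Adj _ _
    rw [SimpleGraph.boxProd_adj]
    exact Or.inr ⟨h, rfl⟩⟩

lemma no_K4 (f : (⊤ : SimpleGraph (Fin 4)) →g shrikhande) : False := by
  have hadj : ∀ x y : Fin 4, x ≠ y → shrikhande.Adj (f x) (f y) := fun x y hxy =>
    f.map_adj ((SimpleGraph.top_adj x y).2 hxy)
  exact DoobGraphs.no_K4 _ _ _ _ (hadj 0 1 (by decide)) (hadj 0 2 (by decide))
    (hadj 0 3 (by decide)) (hadj 1 2 (by decide)) (hadj 1 3 (by decide)) (hadj 2 3 (by decide))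

lemma const_hom {V : Type} (X : SimpleGraph V) (v : V) :
    Nonempty ((⊤ : SimpleGraph PUnit.{1}) →g X) :=
  ⟨⟨fun _ => v, fun {a b} h => absurd (Subsingleton.elim a b) ((SimpleGraph.top_adj _ _).1 h)⟩⟩

/-! ### The main theorem -/

lemma cores_of_K4 (m n : ℕ) (hn : 1 ≤ n) (W : Type) (C : SimpleGraph W) :
    IsCoreOf C (doob m n) ↔ Nonempty (C ≃g (⊤ : SimpleGraph (Fin 4))) := by
  obtain ⟨f⟩ := hom_K4 m n
  obtain ⟨g⟩ := K4_hom m n hn
  exact isCoreOf_iff (top_core (Fin 4)) f g

lemma cores_of_shrikhande (m : ℕ) (hm : 1 ≤ m) (W : Type) (C : SimpleGraph W) :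
    IsCoreOf C (doob m 0) ↔ Nonempty (C ≃g shrikhande) := by
  obtain ⟨k, rfl⟩ : ∃ k, m = k + 1 := ⟨m - 1, by omega⟩
  exact isCoreOf_iff shrikhande_core (σhom (k + 1)) (ιhom k 0)

lemma eq_top_of_iso {V W : Type} {C : SimpleGraph V} (e : C ≃g (⊤ : SimpleGraph W)) : C = ⊤ := by
  ext a b
  rw [← e.map_adj_iff, SimpleGraph.top_adj, SimpleGraph.top_adj]
  exact e.injective.ne_iff

lemma shrikhande_ne_top : shrikhande ≠ ⊤ := by
  intro h
  have h1 : shrikhande.Adj (0, 0) (2, 0) := by
    rw [h, SimpleGraph.top_adj]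
    decide
  rw [adj_iff] at h1
  revert h1
  decide

/-- `D(1, 0)` is the Shrikhande graph -/
lemma iso_one : Nonempty (doob 1 0 ≃g shrikhande) := by
  refine ⟨⟨⟨fun x => (x : PUnit × (ZMod 4 × ZMod 4)).2,
    fun a => ((PUnit.unit, a) : PUnit × (ZMod 4 × ZMod 4)), fun _ => rfl, fun _ => rfl⟩, ?_⟩⟩
  intro x y
  refine Iff.trans ?_ (SimpleGraph.boxProd_adj (G := (⊤ : SimpleGraph PUnit)) (H := shrikhande)
    (x := x) (y := y)).symm
  constructor
  · intro h
    exact Or.inr ⟨h, rfl⟩
  · rintro (⟨h, _⟩ | ⟨h, _⟩)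
    · exact absurd rfl ((SimpleGraph.top_adj _ _).1 h)
    · exact h

lemma coreComplete_iff (m n : ℕ) : CoreComplete (doob m n) ↔ 1 ≤ n ∨ m ≤ 1 := by
  constructor
  · intro h
    by_contra hcon
    obtain ⟨h1, h2⟩ := not_or.1 hcon
    obtain rfl : n = 0 := by omega
    rcases h _ shrikhande ((cores_of_shrikhande m (by omega) _ _).2 ⟨Iso.refl⟩) with ⟨⟨e⟩⟩ | h3
    · have h4 := Nat.card_congr e.toEquiv
      rw [card_DoobV, pow_zero, mul_one] at h4
      have h5 : Nat.card (ZMod 4 × ZMod 4) = 16 := by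
        simp [Nat.card_eq_fintype_card, ZMod.card]
      rw [h5] at h4
      have h6 : 16 ^ 2 ≤ 16 ^ m := Nat.pow_le_pow_right (by norm_num) (by omega)
      rw [h4] at h6
      norm_num at h6
    · exact shrikhande_ne_top h3
  · intro h W C hC
    by_cases hn : 1 ≤ n
    · obtain ⟨e⟩ := (cores_of_K4 m n hn W C).1 hC
      exact Or.inr (eq_top_of_iso e)
    · obtain rfl : n = 0 := by omega
      rcases Nat.eq_zero_or_pos m with rfl | hm
      · right
        obtain ⟨e⟩ := (isCoreOf_iff (X := doob 0 0) (C := C) (top_core PUnit.{1})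
          (Hom.id : (⊤ : SimpleGraph PUnit.{1}) →g ⊤)
          (Hom.id : (⊤ : SimpleGraph PUnit.{1}) →g ⊤)).1 hC
        exact eq_top_of_iso e
      · obtain rfl : m = 1 := by omega
        obtain ⟨e⟩ := (cores_of_shrikhande 1 le_rfl W C).1 hC
        obtain ⟨e'⟩ := iso_one
        exact Or.inl ⟨e'.trans e.symm⟩

lemma hom_iff (m n m' n' : ℕ) : Nonempty (doob m n →g doob m' n') ↔
    (m = 0 ∧ n = 0) ∨ 1 ≤ n' ∨ (n = 0 ∧ 1 ≤ m') := by
  constructor
  · rintro ⟨f⟩
    by_contra hcon
    simp only [not_or, not_and, not_le, Nat.lt_one_iff] at hcon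
    obtain ⟨h1, rfl, h2⟩ := hcon
    rcases Nat.eq_zero_or_pos n with rfl | hn
    · -- `m ≥ 1`, `m' = 0`: the target has one vertex
      have hm : m ≠ 0 := fun e => h1 e rfl
      have hm' : m' = 0 := h2 rfl
      subst hm'
      obtain ⟨k, rfl⟩ : ∃ k, m = k + 1 := ⟨m - 1, by omega⟩
      have h3 : shrikhande.Adj (0, 0) (1, 0) := by
        rw [adj_iff]; decide
      have h4 := f.map_adj ((ιhom k 0).map_adj h3)
      exact absurd (Subsingleton.elim (α := PUnit) _ _) ((SimpleGraph.top_adj (V := PUnit) _ _).1 h4)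
    · obtain ⟨g⟩ := K4_hom m n hn
      rcases Nat.eq_zero_or_pos m' with rfl | hm'
      · have h3 : (⊤ : SimpleGraph (Fin 4)).Adj 0 1 := (SimpleGraph.top_adj _ _).2 (by decide)
        have h4 := f.map_adj (g.map_adj h3)
        exact absurd (Subsingleton.elim (α := PUnit) _ _)
          ((SimpleGraph.top_adj (V := PUnit) _ _).1 h4)
      · exact no_K4 (((σhom m').comp f).comp g)
  · rintro (⟨rfl, rfl⟩ | hn' | ⟨rfl, hm'⟩)
    · exact const_hom _ (base m' n')
    · obtain ⟨f⟩ := hom_K4 m n
      obtain ⟨g⟩ := K4_hom m' n' hn'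
      exact ⟨g.comp f⟩
    · obtain ⟨k, rfl⟩ : ∃ k, m' = k + 1 := ⟨m' - 1, by omega⟩
      exact ⟨(ιhom k n').comp (σhom m)⟩

/-- **The cores of all Doob graphs.** Let `D(m, n)` be the Cartesian product of `m` Shrikhande
graphs and `n` copies of `K_4`.
(1) `D(m, n)` has `16^m 4^n` vertices and is distance-regular of diameter `2m + n` with
`b_i = 3 (2m + n - i)`, `c_i = i`, the intersection numbers of the Hamming graph `H(2m + n, 4)`.
(2) If `n ≥ 1`, the cores of `D(m, n)` are exactly the graphs isomorphic to `K_4`.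
(3) If `m ≥ 1`, the cores of `D(m, 0)` are exactly the graphs isomorphic to the Shrikhande graph.
(4) `D(m, n)` is core-complete if and only if `n ≥ 1` or `m ≤ 1`.
(5) `D(m, n)` has a homomorphism to `D(m', n')` if and only if `m = n = 0`, or `n' ≥ 1`, or
`n = 0` and `m' ≥ 1`.
(6) For every `m ≥ 2` the graphs `D(0, 2m) = H(2m, 4)` and `D(m, 0)` are distance-regular with the
same intersection numbers, the first is core-complete and the second is not; so core-completeness
of distance-regular graphs fails and is not determined by the intersection numbers. -/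
theorem result :
    (∀ m n : ℕ, Nat.card (DoobV m n) = 16 ^ m * 4 ^ n ∧
      IsDistanceRegular (doob m n) (2 * m + n) (fun i => 3 * (2 * m + n - i)) (fun i => i)) ∧
    (∀ m n : ℕ, 1 ≤ n → ∀ (W : Type) (C : SimpleGraph W),
      IsCoreOf C (doob m n) ↔ Nonempty (C ≃g (⊤ : SimpleGraph (Fin 4)))) ∧
    (∀ m : ℕ, 1 ≤ m → ∀ (W : Type) (C : SimpleGraph W),
      IsCoreOf C (doob m 0) ↔ Nonempty (C ≃g shrikhande)) ∧
    (∀ m n : ℕ, CoreComplete (doob m n) ↔ 1 ≤ n ∨ m ≤ 1) ∧
    (∀ m n m' n' : ℕ, Nonempty (doob m n →g doob m' n') ↔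
      (m = 0 ∧ n = 0) ∨ 1 ≤ n' ∨ (n = 0 ∧ 1 ≤ m')) ∧
    (∀ m : ℕ, 2 ≤ m → ∃ b c : ℕ → ℕ, IsDistanceRegular (doob 0 (2 * m)) (2 * m) b c ∧
      IsDistanceRegular (doob m 0) (2 * m) b c ∧ CoreComplete (doob 0 (2 * m)) ∧
      ¬ CoreComplete (doob m 0)) := by
  refine ⟨fun m n => ⟨card_DoobV m n, (doob_HType m n).isDistanceRegular⟩, cores_of_K4,
    cores_of_shrikhande, coreComplete_iff, hom_iff, ?_⟩
  intro m hm
  refine ⟨fun i => 3 * (2 * m - i), fun i => i, ?_, ?_, ?_, ?_⟩
  · have h := (doob_HType 0 (2 * m)).isDistanceRegular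
    simp only [mul_zero, zero_add] at h
    exact h
  · exact (doob_HType m 0).isDistanceRegular
  · exact (coreComplete_iff _ _).2 (Or.inl (by omega))
  · rw [coreComplete_iff]
    omega

end Pool.Agent.Results.MP_06b6d5_co.DoobClassification
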